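import Mathlib
import Pool.Agent.Helper669.VFinal

set_option autoImplicit false

/-!
# The square bracket relation with `ℵ₂` colours for countable sets, under GCH
-/

namespace Pool.Agent.Results.MP_61ad90_lc.HugeGCH

open Cardinal Pool.Agent.Helper669.Forcing Pool.Agent.Helper669.K Pool.Agent.Helper669.U
  Pool.Agent.Helper669.V

/-- Assume GCH, and let `κ` be a huge cardinal with target `m`. Some forcing notion forces GCH,
that `ω₁`, `κ` and all regular cardinals `μ ≥ m` (in particular `m`) stay regular, that every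
cardinal below `κ` has cardinality at most `ℵ₁` and every cardinal below `m` has cardinality at
most `κ` (so `κ = ℵ₂` and `m = ℵ₃`), and that for every set `M` of the ground model with `|M| ≥ m`
(so `|M| ≥ ℵ₃` in the extension, for example `|M| = ℵ_{ω+1}`) the relation
`|M| → [κ]^{ℵ₀}_κ` holds. -/
theorem result (hGCH : ∀ ν : Cardinal.{0}, ℵ₀ ≤ ν → 2 ^ ν = Order.succ ν) (κ m : Cardinal.{0})
    (h : IsHuge κ m) :
    ∃ (P : Type) (_ : Preorder P), Nonempty P ∧ ∀ p : P,
      p ∈ ForcesGCH P ∧ p ∈ StaysRegular P ℵ₁ ∧ p ∈ StaysRegular P κ ∧ m.IsRegular ∧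
      (∀ μ : Cardinal.{0}, μ.IsRegular → m ≤ μ → p ∈ StaysRegular P μ) ∧
      p ∈ CollapsedTo P ℵ₁ κ ∧ p ∈ CollapsedTo P κ m ∧
      ∀ M : Type, m ≤ #M → p ∈ SquareBracket P κ.ord.ToType M := by
  obtain ⟨P, i, h1, h2⟩ := huge_iteration_gch h hGCH
  refine ⟨P, i, h1, fun p => ?_⟩
  obtain ⟨a, b, c, d, e, f, g, _⟩ := h2 p
  exact ⟨f, a, b, c.1, c.2, d, e, g⟩

end Pool.Agent.Results.MP_61ad90_lc.HugeGCH
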